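import Pool.Agent.H95.TM.PvDef

/-!
# Project TM2: the module LIM
-/

set_option autoImplicit false

namespace Pool.Agent.H95.TM

open Finset Pool.Agent.Y862.GM Pool.Agent.H19.TM

theorem pr_prime {z q : ℕ} (h : q ∈ pr z) : q.Prime := (mem_filter.mp h).2

theorem pr_succ_prime {z : ℕ} (hp : (z + 1).Prime) : pr (z + 1) = insert (z + 1) (pr z) := by
  ext q
  simp only [pr, mem_filter, mem_range, mem_insert]
  constructor
  · rintro ⟨h1, h3⟩
    by_cases hq : q = z + 1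
    · left; exact hq
    · right; exact ⟨by omega, h3⟩
  · rintro (h | ⟨h1, h3⟩)
    · subst h; exact ⟨by omega, hp⟩
    · exact ⟨by omega, h3⟩

theorem pr_succ_not {z : ℕ} (hp : ¬ (z + 1).Prime) : pr (z + 1) = pr z := by
  ext q
  simp only [pr, mem_filter, mem_range]
  constructor
  · rintro ⟨h1, h3⟩
    refine ⟨?_, h3⟩
    by_contra hq
    have : q = z + 1 := by omega
    subst this; exact hp h3
  · rintro ⟨h1, h3⟩
    exact ⟨by omega, h3⟩

theorem not_mem_pr (z : ℕ) : z + 1 ∉ pr z := by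
  simp only [pr, mem_filter, mem_range]; omega

theorem ioc_succ_prime {w z : ℕ} (hw : w ≤ z) (hp : (z + 1).Prime) :
    (Ioc w (z + 1)).filter Nat.Prime = insert (z + 1) ((Ioc w z).filter Nat.Prime) := by
  ext q
  simp only [mem_filter, mem_Ioc, mem_insert]
  constructor
  · rintro ⟨⟨h1, h2⟩, h3⟩
    by_cases hq : q = z + 1
    · left; exact hq
    · right; exact ⟨⟨h1, by omega⟩, h3⟩
  · rintro (h | ⟨⟨h1, h2⟩, h3⟩)
    · subst h; exact ⟨⟨by omega, le_rfl⟩, hp⟩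
    · exact ⟨⟨h1, by omega⟩, h3⟩

theorem ioc_succ_not {w z : ℕ} (hp : ¬ (z + 1).Prime) :
    (Ioc w (z + 1)).filter Nat.Prime = (Ioc w z).filter Nat.Prime := by
  ext q
  simp only [mem_filter, mem_Ioc]
  constructor
  · rintro ⟨⟨h1, h2⟩, h3⟩
    refine ⟨⟨h1, ?_⟩, h3⟩
    by_contra hq
    have : q = z + 1 := by omega
    subst this; exact hp h3
  · rintro ⟨⟨h1, h2⟩, h3⟩
    exact ⟨⟨h1, by omega⟩, h3⟩

theorem V_bd (P : Finset ℕ) (hP : ∀ p ∈ P, p.Prime) : 0 ≤ V P ∧ V P ≤ 1 := by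
  unfold V
  refine ⟨prod_nonneg (fun p _ => sq_nonneg _), prod_le_one (fun p _ => sq_nonneg _) (fun p hp => ?_)⟩
  have h1 : (1 : ℝ) ≤ p := by exact_mod_cast (hP p hp).one_le
  have h2 : 0 ≤ 1 / (p : ℝ) := by positivity
  have h3 : 1 / (p : ℝ) ≤ 1 := by rw [div_le_one (by linarith)]; exact h1
  nlinarith

theorem sig_succ {z : ℕ} (hp : (z + 1).Prime) :
    sig (pr (z + 1)) = (1 - 1 / ((z + 1 : ℕ) : ℝ) ^ 2) * sig (pr z) := by
  rw [pr_succ_prime hp, sig, prod_insert (not_mem_pr z), sig]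

/-- one step of the recursion -/
theorem rec_step (hR : S_REC) (hC : S_CNT) (C : ℝ) (hC1 : 1 ≤ C)
    (hV : ∀ P : Finset ℕ, (∀ p ∈ P, p.Prime) → ∀ N : ℕ, 0 ≤ Wv P N ∧ Wv P N ≤ C * N)
    (hS : ∀ P : Finset ℕ, (∀ p ∈ P, p.Prime) → 1 / 2 ≤ sig P ∧ sig P ≤ 1) (e : ℝ) (he : 0 ≤ e) (M0 z : ℕ)
    (hH : ∀ M ≥ M0, Wv (pr z) M ≤ (1 + e) * sig (pr z) * M) (N : ℕ) (hp : (z + 1).Prime) :
    Wv (pr (z + 1)) N - (1 + e) * sig (pr (z + 1)) * N ≤
      (1 - 4 / ((z + 1 : ℕ) : ℝ)) * (Wv (pr z) N - (1 + e) * sig (pr z) * N) +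
        ((1 + e + 3 * C) * N / ((z + 1 : ℕ) : ℝ) ^ 2 + (5 / 4 + 4 * C * M0)) := by
  have hrec := hR (pr z) (fun q hq => pr_prime hq) (z + 1) hp (not_mem_pr z) N
  rw [← pr_succ_prime hp] at hrec
  have hsig := sig_succ hp
  obtain ⟨hs1, hs2⟩ := hS (pr z) (fun q hq => pr_prime hq)
  obtain ⟨hW0, hW1⟩ := hV (pr z) (fun q hq => pr_prime hq) N
  obtain ⟨hv0, hv1⟩ := V_bd (pr z) (fun q hq => pr_prime hq)
  set q : ℕ := z + 1 with hq
  have hq2 : 2 ≤ q := hp.two_le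
  have hq2' : (2 : ℝ) ≤ (q : ℝ) := by exact_mod_cast hq2
  have hq0 : (0 : ℝ) < q := by linarith
  set s := sig (pr z) with hs
  set W := Wv (pr z) N with hW
  set v := V (pr z) with hv
  set T1 := ∑ a ∈ range q, Wv (pr z) (cnt q a N) with hT1
  set T2 := ∑ a ∈ range (q ^ 2), Wv (pr z) (cnt (q ^ 2) a N) with hT2
  have hN0 : (0 : ℝ) ≤ N := Nat.cast_nonneg _
  -- the bounds of the two sums
  have hT10 : 0 ≤ T1 := sum_nonneg (fun a _ => (hV (pr z) (fun q hq => pr_prime hq) _).1)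
  have hT1C : T1 ≤ C * N := by
    calc T1 ≤ ∑ a ∈ range q, C * (cnt q a N : ℝ) :=
          sum_le_sum (fun a _ => (hV (pr z) (fun q hq => pr_prime hq) _).2)
      _ = C * ((∑ a ∈ range q, cnt q a N : ℕ) : ℝ) := by rw [← mul_sum]; push_cast; rfl
      _ = C * N := by rw [(hC q N (by omega)).1]
  have hT2C : T2 ≤ C * N := by
    calc T2 ≤ ∑ a ∈ range (q ^ 2), C * (cnt (q ^ 2) a N : ℝ) :=
          sum_le_sum (fun a _ => (hV (pr z) (fun q hq => pr_prime hq) _).2)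
      _ = C * ((∑ a ∈ range (q ^ 2), cnt (q ^ 2) a N : ℕ) : ℝ) := by rw [← mul_sum]; push_cast; rfl
      _ = C * N := by rw [(hC (q ^ 2) N (Nat.one_le_pow _ _ (by omega))).1]
  have hTe : (4 / (q : ℝ)) * T1 ≤ (4 / (q : ℝ)) * ((1 + e) * s * N) + 4 * C * M0 := by
    by_cases hc : M0 * q ≤ N
    · have h1 : M0 ≤ N / q := (Nat.le_div_iff_mul_le (by omega)).mpr hc
      have h2 : T1 ≤ (1 + e) * s * N := by
        calc T1 ≤ ∑ a ∈ range q, (1 + e) * s * (cnt q a N : ℝ) := by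
              refine sum_le_sum (fun a ha => hH _ ?_)
              exact h1.trans ((hC q N (by omega)).2.1 a (mem_range.mp ha)).1
          _ = (1 + e) * s * ((∑ a ∈ range q, cnt q a N : ℕ) : ℝ) := by rw [← mul_sum]; push_cast; rfl
          _ = _ := by rw [(hC q N (by omega)).1]
      have h3 := mul_le_mul_of_nonneg_left h2 (show 0 ≤ 4 / (q : ℝ) by positivity)
      have h4 : 0 ≤ 4 * C * (M0 : ℝ) := by positivity
      linarith
    · have h1 : (N : ℝ) ≤ M0 * q := by exact_mod_cast (by omega : N ≤ M0 * q)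
      have h2 : (4 / (q : ℝ)) * T1 ≤ 4 * C * M0 := by
        rw [div_mul_eq_mul_div, div_le_iff₀ hq0]
        nlinarith
      have h3 : 0 ≤ (4 / (q : ℝ)) * ((1 + e) * s * N) := by positivity
      linarith
  have hth1 : (4 / (q : ℝ) - 4 / (q : ℝ) ^ 2) * th q N ≤ 1 := by
    obtain ⟨-, -, h0, h1, -, -⟩ := hC q N (by omega)
    have h2 : (4 / (q : ℝ) - 4 / (q : ℝ) ^ 2) * th q N ≤ (4 / (q : ℝ)) * th q N := by
      refine mul_le_mul_of_nonneg_right ?_ h0
      have : 0 ≤ 4 / (q : ℝ) ^ 2 := by positivity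
      linarith
    have h3 : (4 / (q : ℝ)) * th q N ≤ (4 / (q : ℝ)) * (q / 4) :=
      mul_le_mul_of_nonneg_left h1 (by positivity)
    have h4 : (4 / (q : ℝ)) * (q / 4) = 1 := by field_simp
    linarith
  have hth10 : 0 ≤ (4 / (q : ℝ) - 4 / (q : ℝ) ^ 2) * th q N := by
    obtain ⟨-, -, h0, h1, -, -⟩ := hC q N (by omega)
    refine mul_nonneg ?_ h0
    rw [sub_nonneg]
    exact div_le_div_of_nonneg_left (by norm_num) hq0 (by nlinarith)
  have hth2 : th (q ^ 2) N / (q : ℝ) ^ 2 ≤ 1 / 4 := by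
    obtain ⟨-, -, h0, h1, -, -⟩ := hC (q ^ 2) N (Nat.one_le_pow _ _ (by omega))
    rw [div_le_iff₀ (by positivity)]
    push_cast at h1
    linarith
  have hth20 : 0 ≤ th (q ^ 2) N / (q : ℝ) ^ 2 := by
    obtain ⟨-, -, h0, h1, -, -⟩ := hC (q ^ 2) N (Nat.one_le_pow _ _ (by omega))
    positivity
  have hlast : v ^ 2 * ((4 / (q : ℝ) - 4 / (q : ℝ) ^ 2) * th q N + th (q ^ 2) N / (q : ℝ) ^ 2) ≤ 5 / 4 := by
    have hv2 : v ^ 2 ≤ 1 := by nlinarith
    have := mul_le_mul_of_nonneg_right hv2 (add_nonneg hth10 hth20)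
    linarith
  have hsecond : (4 / (q : ℝ) - 4 / (q : ℝ) ^ 2) * T1 ≤ (4 / (q : ℝ)) * T1 := by
    refine mul_le_mul_of_nonneg_right ?_ hT10
    have : 0 ≤ 4 / (q : ℝ) ^ 2 := by positivity
    linarith
  have hthird : 1 / (q : ℝ) ^ 2 * T2 ≤ C * N / (q : ℝ) ^ 2 := by
    rw [div_mul_eq_mul_div, one_mul]
    exact div_le_div_of_nonneg_right hT2C (by positivity)
  have hfirst : (2 / (q : ℝ) ^ 2) * W ≤ 2 * (C * N / (q : ℝ) ^ 2) := by
    rw [div_mul_eq_mul_div, ← mul_div_assoc]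
    exact div_le_div_of_nonneg_right (by linarith) (by positivity)
  have hss : (1 + e) * s * N / (q : ℝ) ^ 2 ≤ (1 + e) * N / (q : ℝ) ^ 2 := by
    refine div_le_div_of_nonneg_right ?_ (by positivity)
    have h1 : 0 ≤ (1 + e) * (N : ℝ) := by positivity
    nlinarith [mul_nonneg h1 (sub_nonneg.mpr hs2)]
  have e1 : (1 + e + 3 * C) * N / (q : ℝ) ^ 2 = (1 + e) * N / (q : ℝ) ^ 2 + 3 * (C * N / (q : ℝ) ^ 2) := by ring
  have e2 : (1 + e) * ((1 - 1 / (q : ℝ) ^ 2) * s) * N = (1 + e) * s * N - (1 + e) * s * N / (q : ℝ) ^ 2 := by ring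
  have e3 : (1 - 4 / (q : ℝ) + 2 / (q : ℝ) ^ 2) * W = (1 - 4 / (q : ℝ)) * W + (2 / (q : ℝ) ^ 2) * W := by ring
  have e4 : (1 - 4 / (q : ℝ)) * (W - (1 + e) * s * N) =
    (1 - 4 / (q : ℝ)) * W - (1 + e) * s * N + (4 / (q : ℝ)) * ((1 + e) * s * N) := by ring
  rw [hrec, hsig, e2, e3, e1, e4]
  linarith

/-- the recursion summed up -/
theorem rec_sum (Y : ℕ → ℝ) (B E : ℝ) (hB : 0 ≤ B) (hE : 0 ≤ E) (w : ℕ) (hw : 3 ≤ w)
    (h1 : ∀ z, w ≤ z → (z + 1).Prime →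
      Y (z + 1) ≤ (1 - 4 / ((z + 1 : ℕ) : ℝ)) * Y z + (B / ((z + 1 : ℕ) : ℝ) ^ 2 + E))
    (h2 : ∀ z, ¬ (z + 1).Prime → Y (z + 1) = Y z) (z : ℕ) (hz : w ≤ z) :
    Y z ≤ Y w * (∏ q ∈ (Ioc w z).filter Nat.Prime, (1 - 4 / (q : ℝ))) +
      ∑ q ∈ (Ioc w z).filter Nat.Prime, (B / (q : ℝ) ^ 2 + E) := by
  induction z, hz using Nat.le_induction with
  | base => simp
  | succ z hz ih =>
    by_cases hp : (z + 1).Prime
    · have hn : (z + 1) ∉ (Ioc w z).filter Nat.Prime := by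
        simp only [mem_filter, mem_Ioc]; omega
      rw [ioc_succ_prime hz hp, prod_insert hn, sum_insert hn]
      have hz4 : (4 : ℝ) ≤ ((z + 1 : ℕ) : ℝ) := by exact_mod_cast (by omega : 4 ≤ z + 1)
      have h4 : 0 ≤ 1 - 4 / ((z + 1 : ℕ) : ℝ) := by
        rw [sub_nonneg, div_le_one (by linarith)]; linarith
      have h5 : 0 ≤ 4 / ((z + 1 : ℕ) : ℝ) := by positivity
      have hS : 0 ≤ ∑ q ∈ (Ioc w z).filter Nat.Prime, (B / (q : ℝ) ^ 2 + E) :=
        sum_nonneg (fun q _ => by positivity)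
      have h6 := h1 z hz hp
      have h7 := mul_le_mul_of_nonneg_left ih h4
      have h8 : (1 - 4 / ((z + 1 : ℕ) : ℝ)) * ∑ q ∈ (Ioc w z).filter Nat.Prime, (B / (q : ℝ) ^ 2 + E) ≤
          ∑ q ∈ (Ioc w z).filter Nat.Prime, (B / (q : ℝ) ^ 2 + E) := by nlinarith
      calc Y (z + 1) ≤ _ := h6
        _ ≤ (1 - 4 / ((z + 1 : ℕ) : ℝ)) * (Y w * (∏ q ∈ (Ioc w z).filter Nat.Prime, (1 - 4 / (q : ℝ))) +
            ∑ q ∈ (Ioc w z).filter Nat.Prime, (B / (q : ℝ) ^ 2 + E)) + (B / ((z + 1 : ℕ) : ℝ) ^ 2 + E) := by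
            linarith
        _ ≤ _ := by
            rw [mul_add]
            have : (1 - 4 / ((z + 1 : ℕ) : ℝ)) * (Y w * (∏ q ∈ (Ioc w z).filter Nat.Prime, (1 - 4 / (q : ℝ)))) =
              Y w * ((1 - 4 / ((z + 1 : ℕ) : ℝ)) * ∏ q ∈ (Ioc w z).filter Nat.Prime, (1 - 4 / (q : ℝ))) := by
              ring
            linarith
    · rw [h2 z hp, ioc_succ_not hp]; exact ih

/-- the primes have density zero -/
theorem pi_small (δ : ℝ) (hδ : 0 < δ) : ∃ N1 : ℕ, ∀ N ≥ N1, ((pr N).card : ℝ) ≤ δ * N := by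
  have h1 := Chebyshev.eventually_primeCounting_le (ε := 1) one_pos
  have h2 : ∀ᶠ x : ℝ in Filter.atTop, (Real.log 4 + 1) / δ ≤ Real.log x :=
    Real.tendsto_log_atTop.eventually_ge_atTop _
  have h3 : ∀ᶠ x : ℝ in Filter.atTop, (1 : ℝ) < x := Filter.eventually_gt_atTop 1
  have h4 := (h1.and (h2.and h3))
  obtain ⟨N1, hN1⟩ := Filter.eventually_atTop.mp (tendsto_natCast_atTop_atTop.eventually h4)
  refine ⟨N1, fun N hN => ?_⟩
  obtain ⟨a1, a2, a3⟩ := hN1 N hN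
  rw [Nat.floor_natCast] at a1
  have hc : ((pr N).card : ℝ) = (Nat.primeCounting N : ℝ) := by
    rw [← Nat.primesLE_card_eq_primeCounting]; rfl
  rw [hc]
  refine a1.trans ?_
  have hl : 0 < Real.log N := Real.log_pos a3
  rw [div_le_iff₀ hl]
  rw [div_le_iff₀ hδ] at a2
  have hN0 : (0 : ℝ) ≤ N := Nat.cast_nonneg _
  nlinarith

/-- the sum of the error terms -/
theorem err_sum (B E : ℝ) (hB : 0 ≤ B) (hE : 0 ≤ E) (w z N : ℕ) (hw : 1 ≤ w) (hwz : w ≤ z) (hz : z ≤ N) :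
    ∑ q ∈ (Ioc w z).filter Nat.Prime, (B / (q : ℝ) ^ 2 + E) ≤ B / w + E * (pr N).card := by
  rw [sum_add_distrib]
  have h1 : ∑ q ∈ (Ioc w z).filter Nat.Prime, B / (q : ℝ) ^ 2 ≤ B / w := by
    calc ∑ q ∈ (Ioc w z).filter Nat.Prime, B / (q : ℝ) ^ 2 ≤ ∑ q ∈ Ioc w z, B / (q : ℝ) ^ 2 :=
          sum_le_sum_of_subset_of_nonneg (filter_subset _ _) (fun q _ _ => by positivity)
      _ = B * ∑ q ∈ Ioc w z, ((q : ℝ) ^ 2)⁻¹ := by
          rw [mul_sum]; exact sum_congr rfl (fun q _ => by rw [div_eq_mul_inv])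
      _ ≤ B * ((w : ℝ)⁻¹ - (z : ℝ)⁻¹) :=
          mul_le_mul_of_nonneg_left (sum_Ioc_inv_sq_le_sub (by omega) hwz) hB
      _ ≤ B * (w : ℝ)⁻¹ := by
          refine mul_le_mul_of_nonneg_left ?_ hB
          have : 0 ≤ (z : ℝ)⁻¹ := by positivity
          linarith
      _ = B / w := by rw [div_eq_mul_inv]
  have h2 : ∑ q ∈ (Ioc w z).filter Nat.Prime, E ≤ E * (pr N).card := by
    rw [sum_const, nsmul_eq_mul, mul_comm]
    refine mul_le_mul_of_nonneg_left ?_ hE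
    exact_mod_cast card_le_card (fun q hq => by
      simp only [mem_filter, mem_Ioc, pr, mem_range] at hq ⊢
      exact ⟨by omega, hq.2⟩)
  linarith

theorem Wv_pr_small (z : ℕ) (hz : z < 2) (N : ℕ) : Wv (pr z) N = 0 := by
  have h : pr z = ∅ := by
    rw [Finset.eq_empty_iff_forall_notMem]
    intro q hq
    have h1 := (pr_prime hq).two_le
    simp only [pr, mem_filter, mem_range] at hq
    omega
  rw [h]
  simp [Wv, V]

/-- the main step -/
theorem stepB (hR : S_REC) (hC : S_CNT) (hVAR : S_VAR) (hSM : S_SMALL) (hPV : S_PV) (hSI : S_SIG) :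
    ∃ c₁ : ℝ, 0 < c₁ ∧ c₁ ≤ 1 / 2 ∧ ∀ e : ℝ, 0 ≤ e →
      (∃ M0 : ℕ, ∀ M ≥ M0, ∀ z, Wv (pr z) M ≤ (1 + e) * sig (pr z) * M) →
      ∃ N2 : ℕ, ∀ N ≥ N2, ∀ z ≤ N, Wv (pr z) N ≤ (1 + (1 - c₁) * e - c₁ / 4) * sig (pr z) * N := by
  obtain ⟨C, hC1, hV⟩ := hVAR
  obtain ⟨D, hD1, hSm⟩ := hSM
  obtain ⟨c, hc, hPv⟩ := hPV
  obtain ⟨hS, -, -⟩ := hSI
  have hc1 : c ≤ 1 := by
    have h := hPv 7 7 le_rfl le_rfl
    have hl : Real.log (7 : ℕ) ≠ 0 := (Real.log_pos (by norm_num)).ne'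
    rw [div_self hl] at h
    simpa using h
  set κ : ℝ := 1 / (4 * D) with hκ
  have hκ0 : 0 < κ := by positivity
  have hκ1 : κ ≤ 1 / 4 := by
    rw [hκ]; exact one_div_le_one_div_of_le (by norm_num) (by linarith)
  set c₁ : ℝ := c * (κ / 2) ^ 8 / 2 with hc₁
  have hc₁0 : 0 < c₁ := by positivity
  have hc₁1 : c₁ ≤ 1 / 2 := by
    have h1 : (κ / 2) ^ 8 ≤ 1 := pow_le_one₀ (by positivity) (by linarith)
    have h2 : c * (κ / 2) ^ 8 ≤ 1 * 1 := mul_le_mul hc1 h1 (by positivity) zero_le_one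
    rw [hc₁]; linarith
  refine ⟨c₁, hc₁0, hc₁1, ?_⟩
  intro e he ⟨M0, hH⟩
  set B' : ℝ := 1 + e + 3 * C with hB'
  have hB'0 : 0 < B' := by positivity
  set E : ℝ := 5 / 4 + 4 * C * M0 with hE
  have hE0 : 0 < E := by positivity
  -- the conditions on `N`
  obtain ⟨N1, hN1⟩ := pi_small (c₁ / (8 * E)) (by positivity)
  have ht : Filter.Tendsto (fun N : ℕ => (N : ℝ) ^ (κ / 2)) Filter.atTop Filter.atTop :=
    (tendsto_rpow_atTop (by positivity)).comp tendsto_natCast_atTop_atTop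
  obtain ⟨N3, hN3⟩ := Filter.eventually_atTop.mp (ht.eventually_ge_atTop (16 * B' / c₁ + 8))
  refine ⟨max N1 (max N3 7), ?_⟩
  intro N hN z hz
  have hNN1 : N1 ≤ N := (le_max_left _ _).trans hN
  have hNN3 : N3 ≤ N := ((le_max_left _ _).trans (le_max_right _ _)).trans hN
  have hN7 : 7 ≤ N := ((le_max_right _ _).trans (le_max_right _ _)).trans hN
  have hN0 : (0 : ℝ) < N := by exact_mod_cast (by omega : 0 < N)
  have hN1' : (1 : ℝ) < N := by exact_mod_cast (by omega : 1 < N)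
  have hlN : 0 < Real.log N := Real.log_pos hN1'
  have hpi := hN1 N hNN1
  have hbig := hN3 N hNN3
  have hroot8 : 8 ≤ (N : ℝ) ^ (κ / 2) := by
    have : 0 ≤ 16 * B' / c₁ := by positivity
    linarith
  set w : ℕ := ⌊(N : ℝ) ^ κ⌋₊ with hw
  have hsq : (N : ℝ) ^ κ = (N : ℝ) ^ (κ / 2) * (N : ℝ) ^ (κ / 2) := by
    rw [← Real.rpow_add hN0]; congr 1; ring
  have hwle : (w : ℝ) ≤ (N : ℝ) ^ κ := Nat.floor_le (Real.rpow_nonneg hN0.le _)
  have hwlt : (N : ℝ) ^ κ < w + 1 := Nat.lt_floor_add_one _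
  have hwge : (N : ℝ) ^ (κ / 2) ≤ w := by nlinarith
  have hw7 : 7 ≤ w := by
    have : (8 : ℝ) ≤ w := hroot8.trans hwge
    have : 8 ≤ w := by exact_mod_cast this
    omega
  have hw0 : (0 : ℝ) < w := by exact_mod_cast (by omega : 0 < w)
  have hwN : w ≤ N := by
    have h1 : (N : ℝ) ^ κ ≤ N := by
      calc (N : ℝ) ^ κ ≤ (N : ℝ) ^ (1 : ℝ) :=
            Real.rpow_le_rpow_of_exponent_le hN1'.le (by linarith)
        _ = N := Real.rpow_one _
    exact_mod_cast hwle.trans h1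
  -- small primes
  have hsmall : ∀ z ≤ w, Wv (pr z) N ≤ N / 4 := by
    intro z hz
    by_cases hz2 : z < 2
    · rw [Wv_pr_small z hz2]; positivity
    · have h1 := hSm z N (by omega) (by omega)
      have hz0 : (0 : ℝ) < z := by exact_mod_cast (by omega : 0 < z)
      have h2 : Real.log z ≤ κ * Real.log N := by
        rw [← Real.log_rpow hN0]
        exact Real.log_le_log hz0 (le_trans (by exact_mod_cast hz) hwle)
      refine h1.trans ?_
      rw [div_le_iff₀ (by linarith)]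
      have h3 : D * N * Real.log z ≤ D * N * (κ * Real.log N) :=
        mul_le_mul_of_nonneg_left h2 (by positivity)
      have h4 : D * N * (κ * Real.log N) = N / 4 * Real.log N := by
        rw [hκ]; field_simp
      nlinarith
  have hsz := hS (pr z) (fun q hq => pr_prime hq)
  by_cases hzw : z ≤ w
  · have h1 := hsmall z hzw
    have h2 : (1 / 2 : ℝ) ≤ 1 + (1 - c₁) * e - c₁ / 4 := by
      have : 0 ≤ (1 - c₁) * e := mul_nonneg (by linarith) he
      linarith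
    have h3 : (1 / 2 : ℝ) * (1 / 2) ≤ (1 + (1 - c₁) * e - c₁ / 4) * sig (pr z) :=
      mul_le_mul h2 hsz.1 (by norm_num) (by linarith)
    have h4 := mul_le_mul_of_nonneg_right h3 hN0.le
    linarith
  · have hwz : w ≤ z := by omega
    set Y : ℕ → ℝ := fun z => Wv (pr z) N - (1 + e) * sig (pr z) * N with hY
    have hYs := rec_sum Y (B' * N) E (by positivity) hE0.le w (by omega)
      (fun z' _ hp => rec_step hR hC C hC1 hV hS e he M0 z' (fun M hM => hH M hM z') N hp)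
      (fun z' hp => by simp only [hY]; rw [pr_succ_not hp]) z hwz
    have herr := err_sum (B' * N) E (by positivity) hE0.le w z N (by omega) hwz hz
    -- the product
    have hprod : c * (κ / 2) ^ 8 ≤ ∏ q ∈ (Ioc w z).filter Nat.Prime, (1 - 4 / (q : ℝ)) := by
      refine le_trans ?_ (hPv w z hw7 hwz)
      refine mul_le_mul_of_nonneg_left (pow_le_pow_left₀ (by positivity) ?_ 8) hc.le
      have hz0 : (0 : ℝ) < z := by exact_mod_cast (by omega : 0 < z)
      have hlz : 0 < Real.log z := Real.log_pos (by exact_mod_cast (by omega : 1 < z))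
      rw [le_div_iff₀ hlz]
      have h1 : Real.log z ≤ Real.log N := Real.log_le_log hz0 (by exact_mod_cast hz)
      have h2 : κ / 2 * Real.log N ≤ Real.log w := by
        rw [← Real.log_rpow hN0]
        exact Real.log_le_log (Real.rpow_pos_of_pos hN0 _) hwge
      exact (mul_le_mul_of_nonneg_left h1 (by positivity)).trans h2
    have hYw : Y w ≤ -((1 / 2 + e) * (1 / 2) * N) := by
      have h1 := hsmall w le_rfl
      have h2 := (hS (pr w) (fun q hq => pr_prime hq)).1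
      have h3 : (1 + e) * (1 / 2) * N ≤ (1 + e) * sig (pr w) * N :=
        mul_le_mul_of_nonneg_right (mul_le_mul_of_nonneg_left h2 (by linarith)) hN0.le
      simp only [hY]
      linarith
    have hP0 : 0 ≤ ∏ q ∈ (Ioc w z).filter Nat.Prime, (1 - 4 / (q : ℝ)) :=
      le_trans (by positivity) hprod
    have hmain : Y w * (∏ q ∈ (Ioc w z).filter Nat.Prime, (1 - 4 / (q : ℝ))) ≤ -((1 / 2 + e) * c₁ * N) := by
      have h1 := mul_le_mul_of_nonneg_right hYw hP0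
      have h2 := mul_le_mul_of_nonneg_left hprod (show 0 ≤ (1 / 2 + e) * (1 / 2) * (N : ℝ) by positivity)
      have h3 : (1 / 2 + e) * (1 / 2) * (N : ℝ) * (c * (κ / 2) ^ 8) = (1 / 2 + e) * c₁ * N := by
        rw [hc₁]; ring
      linarith
    have herr1 : B' * N / w ≤ c₁ / 8 * N := by
      rw [div_le_iff₀ hw0]
      have h1 : 16 * B' / c₁ ≤ w := by linarith
      rw [div_le_iff₀ hc₁0] at h1
      nlinarith
    have herr2 : E * (pr N).card ≤ c₁ / 8 * N := by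
      have h1 := mul_le_mul_of_nonneg_left hpi hE0.le
      have h2 : E * (c₁ / (8 * E) * N) = c₁ / 8 * N := by field_simp
      linarith
    have hYz : Y z ≤ -((1 / 4 + e) * c₁ * N) := by
      have h5 : -((1 / 2 + e) * c₁ * N) + (c₁ / 8 * N + c₁ / 8 * N) = -((1 / 4 + e) * c₁ * N) := by ring
      linarith
    have h6 : (1 / 4 + e) * c₁ * sig (pr z) * N ≤ (1 / 4 + e) * c₁ * N := by
      have h7 : 0 ≤ (1 / 4 + e) * c₁ * (N : ℝ) := by positivity
      nlinarith [mul_nonneg h7 (sub_nonneg.mpr hsz.2)]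
    have h8 : Wv (pr z) N - (1 + e) * sig (pr z) * N ≤ -((1 / 4 + e) * c₁ * N) := hYz
    have h9 : (1 + (1 - c₁) * e - c₁ / 4) * sig (pr z) * N =
      (1 + e) * sig (pr z) * N - (1 / 4 + e) * c₁ * sig (pr z) * N := by ring
    rw [h9]; linarith

/-- above the length -/
theorem far_up (hF : S_FAR) (hSI : S_SIG) (e : ℝ) (he : 0 ≤ e) (N : ℕ) (hN : 4 ≤ N)
    (h : Wv (pr N) N ≤ (1 + e) * sig (pr N) * N) (z : ℕ) (hz : N ≤ z) :
    Wv (pr z) N ≤ (1 + e) * sig (pr z) * N := by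
  induction z, hz using Nat.le_induction with
  | base => exact h
  | succ z hz ih =>
    by_cases hp : (z + 1).Prime
    · have h1 := hF (pr z) (fun q hq => pr_prime hq) (z + 1) hp (not_mem_pr z) N (by omega)
      rw [← pr_succ_prime hp, sig_succ hp] at h1
      rw [sig_succ hp]
      have hz4 : (5 : ℝ) ≤ ((z + 1 : ℕ) : ℝ) := by exact_mod_cast (by omega : 5 ≤ z + 1)
      have hs := (hSI.1 (pr z) (fun q hq => pr_prime hq)).1
      set q : ℝ := ((z + 1 : ℕ) : ℝ) with hq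
      have hq0 : 0 < q := by linarith
      have hN0 : (0 : ℝ) ≤ N := Nat.cast_nonneg _
      have hx : 0 ≤ 1 - 4 / q + 2 / q ^ 2 := by
        have : 4 / q ≤ 1 := by rw [div_le_one hq0]; linarith
        have h2 : 0 ≤ 2 / q ^ 2 := by positivity
        linarith
      have hy : 1 - 4 / q + 2 / q ^ 2 ≤ 1 - 1 / q ^ 2 := by
        have h3 : 3 / q ^ 2 ≤ 4 / q := by
          rw [div_le_div_iff₀ (by positivity) hq0]; nlinarith
        have e1 : 3 / q ^ 2 = 2 / q ^ 2 + 1 / q ^ 2 := by ring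
        linarith
      have h4 : -(e * sig (pr z) * N) ≤ sig (pr z) * N - Wv (pr z) N := by nlinarith
      have h5 := mul_le_mul_of_nonneg_left h4 hx
      have h6 : 0 ≤ e * sig (pr z) * N := by positivity
      have h7 := mul_le_mul_of_nonneg_right hy h6
      have e2 : (1 + e) * ((1 - 1 / q ^ 2) * sig (pr z)) * N =
        (1 - 1 / q ^ 2) * sig (pr z) * N + (1 - 1 / q ^ 2) * (e * sig (pr z) * N) := by ring
      rw [e2]
      nlinarith
    · rw [pr_succ_not hp]; exact ih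

/-- **LIM** -/
theorem t_LIM (hR : S_REC) (hC : S_CNT) (hVAR : S_VAR) (hSM : S_SMALL) (hF : S_FAR) (hPV : S_PV)
    (hSI : S_SIG) : S_LIM := by
  obtain ⟨c₁, hc₁0, hc₁1, hB⟩ := stepB hR hC hVAR hSM hPV hSI
  obtain ⟨C, hC1, hV⟩ := hVAR
  -- iteration
  have hiter : ∀ k : ℕ, ∃ M0 : ℕ, ∀ M ≥ M0, ∀ z,
      Wv (pr z) M ≤ (1 + max 0 (2 * C - k * (c₁ / 4))) * sig (pr z) * M := by
    intro k
    induction k with
    | zero =>
      refine ⟨0, fun M _ z => ?_⟩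
      have h1 := (hV (pr z) (fun q hq => pr_prime hq) M).2
      have h2 := (hSI.1 (pr z) (fun q hq => pr_prime hq)).1
      have h3 : (2 * C : ℝ) ≤ max 0 (2 * C - ((0 : ℕ) : ℝ) * (c₁ / 4)) := by
        refine le_trans ?_ (le_max_right _ _); simp
      have hM : (0 : ℝ) ≤ M := Nat.cast_nonneg _
      have h4 : 2 * C * (1 / 2) ≤ (1 + max 0 (2 * C - ((0 : ℕ) : ℝ) * (c₁ / 4))) * sig (pr z) :=
        mul_le_mul (by linarith) h2 (by norm_num) (by linarith)
      have h5 := mul_le_mul_of_nonneg_right h4 hM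
      linarith
    | succ k ih =>
      obtain ⟨N2, hN2⟩ := hB _ (le_max_left _ _) ih
      set e := max 0 (2 * C - k * (c₁ / 4)) with he
      have he0 : 0 ≤ e := le_max_left _ _
      set e' := max 0 (2 * C - ((k + 1 : ℕ) : ℝ) * (c₁ / 4)) with he'
      have he'0 : 0 ≤ e' := le_max_left _ _
      have hee : (1 - c₁) * e - c₁ / 4 ≤ e' := by
        have h1 : (1 - c₁) * e ≤ e := by nlinarith
        have h2 : e ≤ e' + c₁ / 4 := by
          rw [he]
          refine max_le (by linarith) ?_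
          have h3 : 2 * C - ((k + 1 : ℕ) : ℝ) * (c₁ / 4) ≤ e' := le_max_right _ _
          push_cast at h3
          linarith
        linarith
      have hup : ∀ N ≥ N2, ∀ z ≤ N, Wv (pr z) N ≤ (1 + e') * sig (pr z) * N := by
        intro N hN z hz
        refine (hN2 N hN z hz).trans ?_
        have h2 := (hSI.1 (pr z) (fun q hq => pr_prime hq)).1
        refine mul_le_mul_of_nonneg_right (mul_le_mul_of_nonneg_right ?_ (by linarith)) (Nat.cast_nonneg _)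
        linarith
      refine ⟨max N2 4, fun M hM z => ?_⟩
      have hM2 : N2 ≤ M := (le_max_left _ _).trans hM
      have hM4 : 4 ≤ M := (le_max_right _ _).trans hM
      by_cases hz : z ≤ M
      · exact hup M hM2 z hz
      · exact far_up hF hSI e' he'0 M hM4 (hup M hM2 M le_rfl) z (by omega)
  obtain ⟨k, hk⟩ := exists_nat_gt (2 * C / (c₁ / 4))
  rw [div_lt_iff₀ (by positivity)] at hk
  have h0 : max 0 (2 * C - k * (c₁ / 4)) = 0 := max_eq_left (by linarith)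
  have h1 := hiter k
  rw [h0] at h1
  obtain ⟨N2, hN2⟩ := hB 0 le_rfl h1
  refine ⟨c₁ / 4, by positivity, N2, fun N z hN hz => ?_⟩
  have h2 := hN2 N hN z hz
  have e1 : 1 + (1 - c₁) * 0 - c₁ / 4 = 1 - c₁ / 4 := by ring
  rw [e1] at h2
  exact h2

end Pool.Agent.H95.TM
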