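import Pool.Agent.H19.TM.Stm2

/-!
# Project TM2: the modules PV and DEF
-/

set_option autoImplicit false

namespace Pool.Agent.H95.TM

open Finset Pool.Agent.Y862.GM Pool.Agent.H19.TM

/-- the primes up to `z` are those up to `w` and those in `(w, z]` -/
theorem pr_split (w z : ℕ) (h : w ≤ z) : pr z = pr w ∪ (Ioc w z).filter Nat.Prime := by
  ext q
  simp only [pr, mem_union, mem_filter, mem_range, mem_Ioc]
  constructor
  · rintro ⟨h1, h2⟩
    by_cases hq : q ≤ w
    · left; exact ⟨by omega, h2⟩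
    · right; exact ⟨⟨by omega, by omega⟩, h2⟩
  · rintro (⟨h1, h2⟩ | ⟨⟨h1, h3⟩, h2⟩)
    · exact ⟨by omega, h2⟩
    · exact ⟨by omega, h2⟩

theorem pr_disj (w z : ℕ) : Disjoint (pr w) ((Ioc w z).filter Nat.Prime) := by
  rw [Finset.disjoint_left]
  intro q h1 h2
  simp only [pr, mem_filter, mem_range, mem_Ioc] at h1 h2
  omega

/-- the elementary inequality for the factors -/
theorem fac8 (x : ℝ) (h0 : 0 ≤ x) (h1 : x ≤ 1 / 7) : (1 - x) ^ 8 ≤ 1 - 4 * x := by
  have a1 : (1 - x) ^ 2 ≤ 1 - 13 / 7 * x := by nlinarith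
  have b1 : 0 ≤ (1 - x) ^ 2 := sq_nonneg _
  have a2 : ((1 - x) ^ 2) ^ 2 ≤ (1 - 13 / 7 * x) ^ 2 := pow_le_pow_left₀ b1 a1 2
  have a3 : (1 - 13 / 7 * x) ^ 2 ≤ 1 - 3 * x := by nlinarith
  have b2 : 0 ≤ ((1 - x) ^ 2) ^ 2 := sq_nonneg _
  have a4 : (((1 - x) ^ 2) ^ 2) ^ 2 ≤ (1 - 3 * x) ^ 2 := pow_le_pow_left₀ b2 (a2.trans a3) 2
  have a5 : (1 - 3 * x) ^ 2 ≤ 1 - 4 * x := by nlinarith
  calc (1 - x) ^ 8 = (((1 - x) ^ 2) ^ 2) ^ 2 := by ring
    _ ≤ _ := a4.trans a5

/-- **PV** -/
theorem t_PV (h1 : S_VV) : S_PV := by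
  obtain ⟨c, C, hc, hC, h⟩ := h1
  refine ⟨(c / C) ^ 4, by positivity, ?_⟩
  intro w z hw hwz
  have hlw : 0 < Real.log w := Real.log_pos (by exact_mod_cast (by omega : 1 < w))
  have hlz : 0 < Real.log z := Real.log_pos (by exact_mod_cast (by omega : 1 < z))
  obtain ⟨-, hw2⟩ := h w (by omega)
  obtain ⟨hz1, -⟩ := h z (by omega)
  have hVw : 0 < V (pr w) := lt_of_lt_of_le (by positivity) (h w (by omega)).1
  set Q := (Ioc w z).filter Nat.Prime with hQ
  have hsp : V (pr z) = V (pr w) * ∏ q ∈ Q, (1 - 1 / (q : ℝ)) ^ 2 := by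
    unfold V
    rw [pr_split w z hwz, prod_union (pr_disj w z)]
  set R := ∏ q ∈ Q, (1 - 1 / (q : ℝ)) ^ 2 with hR
  have hR0 : 0 ≤ R := prod_nonneg (fun q _ => sq_nonneg _)
  have hkey : c / C * (Real.log w / Real.log z) ^ 2 ≤ R := by
    have e1 : c / Real.log z ^ 2 ≤ C / Real.log w ^ 2 * R := by
      calc c / Real.log z ^ 2 ≤ V (pr z) := hz1
        _ = V (pr w) * R := hsp
        _ ≤ C / Real.log w ^ 2 * R := mul_le_mul_of_nonneg_right hw2 hR0
    rw [div_mul_eq_mul_div, le_div_iff₀ (by positivity), div_mul_eq_mul_div, div_le_iff₀ (by positivity)] at e1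
    rw [div_pow, div_mul_div_comm, div_le_iff₀ (by positivity)]
    linarith
  calc (c / C) ^ 4 * (Real.log w / Real.log z) ^ 8
      = (c / C * (Real.log w / Real.log z) ^ 2) ^ 4 := by ring
    _ ≤ R ^ 4 := pow_le_pow_left₀ (by positivity) hkey 4
    _ = ∏ q ∈ Q, (1 - 1 / (q : ℝ)) ^ 8 := by
        rw [hR, ← prod_pow]
        exact prod_congr rfl (fun q _ => by ring)
    _ ≤ ∏ q ∈ Q, (1 - 4 / (q : ℝ)) := by
        refine prod_le_prod ?_ ?_
        · intro q _
          exact (even_iff_two_dvd.mpr ⟨4, rfl⟩ : Even 8).pow_nonneg _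
        · intro q hq
          have hq7 : (7 : ℝ) ≤ q := by
            simp only [hQ, mem_filter, mem_Ioc] at hq
            exact_mod_cast (by omega : 7 ≤ q)
          have h0 : (0 : ℝ) ≤ 1 / q := by positivity
          have h7 : 1 / (q : ℝ) ≤ 1 / 7 := one_div_le_one_div_of_le (by norm_num) hq7
          have := fac8 (1 / (q : ℝ)) h0 h7
          have e : (4 : ℝ) / q = 4 * (1 / q) := by ring
          rw [e]; exact this

/-- the deficiency decreases slowly above the length -/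
theorem def_far (hF : S_FAR) (b : ℕ) (hb : 7 ≤ b) (hD : 0 ≤ sig (pr b) * b - Wv (pr b) b) (y : ℕ) (hy : b ≤ y) :
    (sig (pr b) * b - Wv (pr b) b) * ∏ q ∈ (Ioc b y).filter Nat.Prime, (1 - 4 / (q : ℝ)) ≤
      sig (pr y) * b - Wv (pr y) b := by
  induction y, hy using Nat.le_induction with
  | base => simp
  | succ y hy ih =>
    by_cases hp : (y + 1).Prime
    · have e1 : (Ioc b (y + 1)).filter Nat.Prime = insert (y + 1) ((Ioc b y).filter Nat.Prime) := by
        ext q
        simp only [mem_filter, mem_Ioc, mem_insert]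
        constructor
        · rintro ⟨⟨h1, h2⟩, h3⟩
          by_cases hq : q = y + 1
          · left; exact hq
          · right; exact ⟨⟨h1, by omega⟩, h3⟩
        · rintro (h | ⟨⟨h1, h2⟩, h3⟩)
          · subst h; exact ⟨⟨by omega, le_rfl⟩, hp⟩
          · exact ⟨⟨h1, by omega⟩, h3⟩
      have e2 : pr (y + 1) = insert (y + 1) (pr y) := by
        ext q
        simp only [pr, mem_filter, mem_range, mem_insert]
        constructor
        · rintro ⟨h1, h3⟩
          by_cases hq : q = y + 1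
          · left; exact hq
          · right; exact ⟨by omega, h3⟩
        · rintro (h | ⟨h1, h3⟩)
          · subst h; exact ⟨by omega, hp⟩
          · exact ⟨by omega, h3⟩
      have hn : (y + 1) ∉ (Ioc b y).filter Nat.Prime := by
        simp only [mem_filter, mem_Ioc]; omega
      have hn2 : (y + 1) ∉ pr y := by
        simp only [pr, mem_filter, mem_range]; omega
      have hpr : ∀ q ∈ pr y, q.Prime := fun q hq => (mem_filter.mp hq).2
      have hf := hF (pr y) hpr (y + 1) hp hn2 b (by omega)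
      rw [e1, prod_insert hn, e2]
      have hy7 : (8 : ℝ) ≤ ((y + 1 : ℕ) : ℝ) := by exact_mod_cast (by omega : 8 ≤ y + 1)
      have h4 : 0 ≤ 1 - 4 / ((y + 1 : ℕ) : ℝ) := by
        rw [sub_nonneg, div_le_one (by linarith)]; linarith
      have hprod : 0 ≤ ∏ q ∈ (Ioc b y).filter Nat.Prime, (1 - 4 / (q : ℝ)) := by
        refine prod_nonneg (fun q hq => ?_)
        have hq7 : (4 : ℝ) ≤ q := by
          simp only [mem_filter, mem_Ioc] at hq
          exact_mod_cast (by omega : 4 ≤ q)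
        rw [sub_nonneg, div_le_one (by linarith)]; linarith
      have hD2 : 0 ≤ sig (pr y) * b - Wv (pr y) b := le_trans (mul_nonneg hD hprod) ih
      calc (sig (pr b) * b - Wv (pr b) b) * ((1 - 4 / ((y + 1 : ℕ) : ℝ)) *
            ∏ q ∈ (Ioc b y).filter Nat.Prime, (1 - 4 / (q : ℝ)))
          = (1 - 4 / ((y + 1 : ℕ) : ℝ)) * ((sig (pr b) * b - Wv (pr b) b) *
            ∏ q ∈ (Ioc b y).filter Nat.Prime, (1 - 4 / (q : ℝ))) := by ring
        _ ≤ (1 - 4 / ((y + 1 : ℕ) : ℝ)) * (sig (pr y) * b - Wv (pr y) b) :=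
            mul_le_mul_of_nonneg_left ih h4
        _ ≤ (1 - 4 / ((y + 1 : ℕ) : ℝ) + 2 / ((y + 1 : ℕ) : ℝ) ^ 2) * (sig (pr y) * b - Wv (pr y) b) := by
            refine mul_le_mul_of_nonneg_right ?_ hD2
            have : 0 ≤ 2 / ((y + 1 : ℕ) : ℝ) ^ 2 := by positivity
            linarith
        _ ≤ _ := hf
    · have e1 : (Ioc b (y + 1)).filter Nat.Prime = (Ioc b y).filter Nat.Prime := by
        ext q
        simp only [mem_filter, mem_Ioc]
        constructor
        · rintro ⟨⟨h1, h2⟩, h3⟩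
          refine ⟨⟨h1, ?_⟩, h3⟩
          by_contra hq
          have : q = y + 1 := by omega
          subst this; exact hp h3
        · rintro ⟨⟨h1, h2⟩, h3⟩
          exact ⟨⟨h1, by omega⟩, h3⟩
      have e2 : pr (y + 1) = pr y := by
        ext q
        simp only [pr, mem_filter, mem_range]
        constructor
        · rintro ⟨h1, h3⟩
          refine ⟨?_, h3⟩
          by_contra hq
          have : q = y + 1 := by omega
          subst this; exact hp h3
        · rintro ⟨h1, h3⟩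
          exact ⟨by omega, h3⟩
      rw [e1, e2]; exact ih

/-- `6 / π ^ 2` is between `0` and `1` -/
theorem six_pi : 0 < 6 / Real.pi ^ 2 ∧ 6 / Real.pi ^ 2 ≤ 1 := by
  have h3 : 3 < Real.pi := Real.pi_gt_three
  constructor
  · positivity
  · rw [div_le_one (by positivity)]; nlinarith

/-- **DEF** -/
theorem t_DEF (hL : S_LIM) (hF : S_FAR) (hP : S_PV) (hS : S_SIG) : S_DEF := by
  intro c hc
  obtain ⟨η0', hη0', N0, hLim⟩ := hL
  obtain ⟨c', hc', hPV⟩ := hP
  obtain ⟨hS1, hS2, -⟩ := hS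
  obtain ⟨hpi0, hpi1⟩ := six_pi
  set κ := 6 / Real.pi ^ 2 with hκ
  -- reduce the size of η0
  obtain ⟨η0, hη0, hη01, hLim1⟩ : ∃ η0 : ℝ, 0 < η0 ∧ η0 ≤ 1 ∧ ∀ N z : ℕ, N0 ≤ N → z ≤ N →
      Wv (pr z) N ≤ (1 - η0) * sig (pr z) * N := by
    refine ⟨min η0' 1, lt_min hη0' one_pos, min_le_right _ _, ?_⟩
    intro N z hN hz
    refine (hLim N z hN hz).trans ?_
    have hs : 0 ≤ sig (pr z) := le_trans (by norm_num) (hS1 (pr z) (fun q hq => (mem_filter.mp hq).2)).1
    have h1 : 1 - η0' ≤ 1 - min η0' 1 := by have := min_le_left η0' 1; linarith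
    exact mul_le_mul_of_nonneg_right (mul_le_mul_of_nonneg_right h1 hs) (Nat.cast_nonneg _)
  set η1 : ℝ := η0 / 2 * (c' * c ^ 8) with hη1
  have hη1p : 0 < η1 := by positivity
  set ε : ℝ := min (η0 / 2) (η1 / 2) with hε
  have hεp : 0 < ε := lt_min (by linarith) (by linarith)
  obtain ⟨A1, hA1⟩ := hS2 ε hεp
  -- the length is large
  have htend : Filter.Tendsto (fun y : ℕ => (y : ℝ) ^ c) Filter.atTop Filter.atTop :=
    (tendsto_rpow_atTop hc).comp tendsto_natCast_atTop_atTop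
  obtain ⟨A2, hA2⟩ := Filter.eventually_atTop.mp (htend.eventually_ge_atTop ((N0 : ℝ) + 7))
  refine ⟨ε, hεp, max (max A1 A2) (max N0 7), ?_⟩
  intro y b hy hb
  have hyA1 : A1 ≤ y := le_trans (le_trans (le_max_left _ _) (le_max_left _ _)) hy
  have hyA2 : A2 ≤ y := le_trans (le_trans (le_max_right _ _) (le_max_left _ _)) hy
  have hy7 : 7 ≤ y := le_trans (le_trans (le_max_right _ _) (le_max_right _ _)) hy
  have hbN : (N0 : ℝ) + 7 ≤ b := (hA2 y hyA2).trans hb
  have hbN0 : N0 + 7 ≤ b := by exact_mod_cast hbN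
  have hsig := hA1 y hyA1
  have hb0 : (0 : ℝ) ≤ b := Nat.cast_nonneg _
  by_cases hyb : y ≤ b
  · have h1 := hLim1 b y (by omega) hyb
    have hε1 : ε ≤ η0 / 2 := min_le_left _ _
    calc Wv (pr y) b ≤ (1 - η0) * sig (pr y) * b := h1
      _ ≤ (1 - η0) * ((1 + ε) * κ) * b := by
          refine mul_le_mul_of_nonneg_right (mul_le_mul_of_nonneg_left hsig (by linarith)) hb0
      _ = ((1 - η0) * (1 + ε)) * (κ * b) := by ring
      _ ≤ (1 - ε) * (κ * b) := by
          refine mul_le_mul_of_nonneg_right ?_ (by positivity)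
          nlinarith
      _ = _ := by ring
  · have hyb' : b ≤ y := by omega
    have h1 := hLim1 b b (by omega) le_rfl
    have hsb := (hS1 (pr b) (fun q hq => (mem_filter.mp hq).2)).1
    have hDb : η0 / 2 * b ≤ sig (pr b) * b - Wv (pr b) b := by
      have : η0 * (1 / 2) * b ≤ η0 * sig (pr b) * b :=
        mul_le_mul_of_nonneg_right (mul_le_mul_of_nonneg_left hsb hη0.le) hb0
      nlinarith
    have hDb0 : 0 ≤ sig (pr b) * b - Wv (pr b) b := le_trans (by positivity) hDb
    have hfar := def_far hF b (by omega) hDb0 y hyb'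
    have hpv := hPV b y (by omega) hyb'
    have hly : 0 < Real.log y := Real.log_pos (by exact_mod_cast (by omega : 1 < y))
    have hyp : (0 : ℝ) < y := by exact_mod_cast (by omega : 0 < y)
    have hlog : c ≤ Real.log b / Real.log y := by
      rw [le_div_iff₀ hly, ← Real.log_rpow hyp]
      exact Real.log_le_log (Real.rpow_pos_of_pos hyp _) hb
    have h8 : c ^ 8 ≤ (Real.log b / Real.log y) ^ 8 := pow_le_pow_left₀ hc.le hlog 8
    have hprod : c' * c ^ 8 ≤ ∏ q ∈ (Ioc b y).filter Nat.Prime, (1 - 4 / (q : ℝ)) :=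
      (mul_le_mul_of_nonneg_left h8 hc'.le).trans hpv
    have hD : η1 * b ≤ sig (pr y) * b - Wv (pr y) b := by
      calc η1 * b = η0 / 2 * b * (c' * c ^ 8) := by rw [hη1]; ring
        _ ≤ (sig (pr b) * b - Wv (pr b) b) * ∏ q ∈ (Ioc b y).filter Nat.Prime, (1 - 4 / (q : ℝ)) :=
            mul_le_mul hDb hprod (by positivity) hDb0
        _ ≤ _ := hfar
    have hε2 : ε ≤ η1 / 2 := min_le_right _ _
    have hsigb : sig (pr y) * b ≤ ((1 + ε) * κ) * b := mul_le_mul_of_nonneg_right hsig hb0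
    have hκε : ε * κ ≤ ε := by nlinarith
    have : Wv (pr y) b ≤ ((1 + ε) * κ - η1) * b := by linarith
    refine this.trans (mul_le_mul_of_nonneg_right ?_ hb0)
    nlinarith

end Pool.Agent.H95.TM
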