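import Pool.Agent.H19.TM.Stm3
import Pool.Agent.H95.TM.Lim

/-!
# Project TM3: the module EC
-/

set_option autoImplicit false

namespace Pool.Agent.H95.TM

open Finset Pool.Agent.Y862.GM Pool.Agent.H19.TM

theorem pr_empty {z : ℕ} (hz : z < 2) : pr z = ∅ := by
  rw [Finset.eq_empty_iff_forall_notMem]
  intro q hq
  have h1 := (pr_prime hq).two_le
  simp only [pr, mem_filter, mem_range] at hq
  omega

/-- no primes -/
theorem Ed_small (hG2 : S_G2) {z : ℕ} (hz : z < 2) {N : ℕ} (hN : 1 ≤ N) : Ed (pr z) N = 0 := by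
  obtain ⟨h1, h2⟩ := hG2
  have a1 := h1 (pr z) (fun q hq => pr_prime hq) N
  have a2 := h2 (pr z) (fun q hq => pr_prime hq) N
  rw [pr_empty hz] at a1 a2 ⊢
  rw [sum_empty] at a2
  have hl : 0 < Real.log ((N : ℝ) + 1) := Real.log_pos (by
    have : (1 : ℝ) ≤ N := by exact_mod_cast hN
    linarith)
  have a3 : 1 - Gd ∅ N ≤ 0 := by
    by_contra h
    push Not at h
    have := mul_pos h hl
    linarith
  have a4 : Gd ∅ N = 1 := le_antisymm a1.2 (by linarith)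
  have a5 : Wv ∅ N = 0 := by
    have := Wv_pr_small z hz N
    rwa [pr_empty hz] at this
  rw [Ed, Fd, a4, a5]
  simp

/-- the recursion summed up, up to `N` -/
theorem rec_sumN (Y : ℕ → ℝ) (B E : ℝ) (hB : 0 ≤ B) (hE : 0 ≤ E) (w N : ℕ) (hw : 3 ≤ w)
    (h1 : ∀ z, w ≤ z → z + 1 ≤ N → (z + 1).Prime →
      Y (z + 1) ≤ (1 - 4 / ((z + 1 : ℕ) : ℝ)) * Y z + (B / ((z + 1 : ℕ) : ℝ) ^ 2 + E))
    (h2 : ∀ z, ¬ (z + 1).Prime → Y (z + 1) = Y z) (z : ℕ) (hz : w ≤ z) (hzN : z ≤ N) :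
    Y z ≤ Y w * (∏ q ∈ (Ioc w z).filter Nat.Prime, (1 - 4 / (q : ℝ))) +
      ∑ q ∈ (Ioc w z).filter Nat.Prime, (B / (q : ℝ) ^ 2 + E) := by
  induction z, hz using Nat.le_induction with
  | base => simp
  | succ z hz ih =>
    by_cases hp : (z + 1).Prime
    · have ih := ih (by omega)
      have hn : (z + 1) ∉ (Ioc w z).filter Nat.Prime := by
        simp only [mem_filter, mem_Ioc]; omega
      rw [ioc_succ_prime hz hp, prod_insert hn, sum_insert hn]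
      have hz4 : (4 : ℝ) ≤ ((z + 1 : ℕ) : ℝ) := by exact_mod_cast (by omega : 4 ≤ z + 1)
      have h4 : 0 ≤ 1 - 4 / ((z + 1 : ℕ) : ℝ) := by
        rw [sub_nonneg, div_le_one (by linarith)]; linarith
      have h5 : 0 ≤ 4 / ((z + 1 : ℕ) : ℝ) := by positivity
      have hS : 0 ≤ ∑ q ∈ (Ioc w z).filter Nat.Prime, (B / (q : ℝ) ^ 2 + E) :=
        sum_nonneg (fun q _ => by positivity)
      have h6 := h1 z hz hzN hp
      have h7 := mul_le_mul_of_nonneg_left ih h4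
      have h8 : (1 - 4 / ((z + 1 : ℕ) : ℝ)) * ∑ q ∈ (Ioc w z).filter Nat.Prime, (B / (q : ℝ) ^ 2 + E) ≤
          ∑ q ∈ (Ioc w z).filter Nat.Prime, (B / (q : ℝ) ^ 2 + E) := by nlinarith
      calc Y (z + 1) ≤ _ := h6
        _ ≤ (1 - 4 / ((z + 1 : ℕ) : ℝ)) * (Y w * (∏ q ∈ (Ioc w z).filter Nat.Prime, (1 - 4 / (q : ℝ))) +
            ∑ q ∈ (Ioc w z).filter Nat.Prime, (B / (q : ℝ) ^ 2 + E)) + (B / ((z + 1 : ℕ) : ℝ) ^ 2 + E) := by
            linarith
        _ ≤ _ := by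
            rw [mul_add]
            have : (1 - 4 / ((z + 1 : ℕ) : ℝ)) * (Y w * (∏ q ∈ (Ioc w z).filter Nat.Prime, (1 - 4 / (q : ℝ)))) =
              Y w * ((1 - 4 / ((z + 1 : ℕ) : ℝ)) * ∏ q ∈ (Ioc w z).filter Nat.Prime, (1 - 4 / (q : ℝ))) := by
              ring
            linarith
    · rw [h2 z hp, ioc_succ_not hp]; exact ih (by omega)

/-- one step at a prime `p ≤ N` -/
theorem ec_step {C1 C3 : ℝ} (hC3 : 0 ≤ C3)
    (hE1 : ∀ P : Finset ℕ, (∀ q ∈ P, q.Prime) → ∀ p : ℕ, p.Prime → p ∉ P → 5 ≤ p →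
      ∀ N : ℕ, p ≤ N → ∀ e δ : ℝ, |Ed P (N / p)| ≤ e → |Ed P (N / p + 1)| ≤ e →
      |Gd P (N / p + 1) - Gd P (N / p)| ≤ δ →
      |Ed (insert p P) N| ≤ (1 - 4 / (p : ℝ)) * |Ed P N| + 4 / (p : ℝ) * (e + δ) +
        C1 * (1 / (p : ℝ) ^ 2 + 1 / N))
    (hE3 : ∀ P : Finset ℕ, (∀ q ∈ P, q.Prime) → ∀ N : ℕ, |Ed P N| ≤ C3)
    (hG : ∀ P : Finset ℕ, (∀ q ∈ P, q.Prime) → ∀ N : ℕ, 0 ≤ Gd P N ∧ Gd P N ≤ 1)
    {e δ : ℝ} (he : 0 ≤ e) (hδ : 0 ≤ δ) (M0 : ℕ)
    (hH : ∀ M ≥ M0, ∀ z, |Ed (pr z) M| ≤ e)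
    (hH4 : ∀ M : ℕ, M0 ≤ M → ∀ P : Finset ℕ, (∀ q ∈ P, q.Prime) → |Gd P (M + 1) - Gd P M| ≤ δ)
    (N z : ℕ) (hp : (z + 1).Prime) (h5 : 5 ≤ z + 1) (hzN : z + 1 ≤ N) :
    |Ed (pr (z + 1)) N| - (e + δ) ≤ (1 - 4 / ((z + 1 : ℕ) : ℝ)) * (|Ed (pr z) N| - (e + δ)) +
      (C1 / ((z + 1 : ℕ) : ℝ) ^ 2 + (4 * M0 * (C3 + 1) + C1) / N) := by
  have hN0 : (0 : ℝ) < N := by exact_mod_cast (by omega : 0 < N)
  rw [pr_succ_prime hp]
  set p : ℕ := z + 1 with hpdef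
  have hp0 : (0 : ℝ) < p := by exact_mod_cast (by omega : 0 < p)
  have key : |Ed (insert p (pr z)) N| ≤ (1 - 4 / (p : ℝ)) * |Ed (pr z) N| + 4 / (p : ℝ) * (e + δ) +
      4 * M0 * (C3 + 1) / N + C1 * (1 / (p : ℝ) ^ 2 + 1 / N) := by
    by_cases hc : M0 ≤ N / p
    · have h1 := hE1 (pr z) (fun q hq => pr_prime hq) p hp (not_mem_pr z) h5 N hzN e δ
        (hH _ hc z) (hH _ (by omega) z) (hH4 _ hc (pr z) (fun q hq => pr_prime hq))
      have h2 : (0 : ℝ) ≤ 4 * M0 * (C3 + 1) / N := by positivity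
      linarith
    · have h1 := hE1 (pr z) (fun q hq => pr_prime hq) p hp (not_mem_pr z) h5 N hzN C3 1
        (hE3 _ (fun q hq => pr_prime hq) _) (hE3 _ (fun q hq => pr_prime hq) _) (by
          have g1 := hG (pr z) (fun q hq => pr_prime hq) (N / p + 1)
          have g2 := hG (pr z) (fun q hq => pr_prime hq) (N / p)
          rw [abs_le]
          constructor <;> linarith [g1.1, g1.2, g2.1, g2.2])
      push Not at hc
      have h2 : N < M0 * p := (Nat.div_lt_iff_lt_mul (by omega)).mp hc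
      have h3 : (N : ℝ) ≤ M0 * p := by exact_mod_cast h2.le
      have h4 : 4 / (p : ℝ) * (C3 + 1) ≤ 4 * M0 * (C3 + 1) / N := by
        rw [div_mul_eq_mul_div, div_le_div_iff₀ hp0 hN0]
        have : 0 ≤ 4 * (C3 + 1) := by positivity
        nlinarith [mul_le_mul_of_nonneg_left h3 this]
      have h6 : 0 ≤ 4 / (p : ℝ) * (e + δ) := by positivity
      linarith
  have e1 : (4 * M0 * (C3 + 1) + C1) / N = 4 * M0 * (C3 + 1) / N + C1 / N := by rw [add_div]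
  have e2 : C1 * (1 / (p : ℝ) ^ 2 + 1 / N) = C1 / (p : ℝ) ^ 2 + C1 / N := by ring
  have e3 : (1 - 4 / (p : ℝ)) * (|Ed (pr z) N| - (e + δ)) =
    (1 - 4 / (p : ℝ)) * |Ed (pr z) N| - (e + δ) + 4 / (p : ℝ) * (e + δ) := by ring
  rw [e1, e3]
  rw [e2] at key
  linarith

/-- the primes above the length -/
theorem ec_far {C2 CV : ℝ} (hC2 : 0 ≤ C2) (hCV : 0 ≤ CV)
    (hE2 : ∀ P : Finset ℕ, (∀ q ∈ P, q.Prime) → ∀ p : ℕ, p.Prime → p ∉ P → 5 ≤ p →
      ∀ N : ℕ, 1 ≤ N → N ≤ p →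
      |Ed (insert p P) N| ≤ |Ed P N| + C2 / (p : ℝ) ^ 2 + C2 * V P ^ 2 * N / (p : ℝ) ^ 2)
    (hV : ∀ y : ℕ, 3 ≤ y → V (pr y) ≤ CV / Real.log y ^ 2)
    (N : ℕ) (hN : 5 ≤ N) (z : ℕ) (hz : N ≤ z) :
    |Ed (pr z) N| ≤ |Ed (pr N) N| + (C2 + C2 * (CV / Real.log N ^ 2) ^ 2 * N) * (1 / N - 1 / z) := by
  have hN0 : (0 : ℝ) < N := by exact_mod_cast (by omega : 0 < N)
  have hlN : 0 < Real.log N := Real.log_pos (by exact_mod_cast (by omega : 1 < N))
  set A : ℝ := C2 + C2 * (CV / Real.log N ^ 2) ^ 2 * N with hA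
  have hA0 : 0 ≤ A := by positivity
  induction z, hz using Nat.le_induction with
  | base => simp
  | succ z hz ih =>
    have hz0 : (0 : ℝ) < z := by exact_mod_cast (by omega : 0 < z)
    have hstep : (0 : ℝ) ≤ 1 / z - 1 / ((z + 1 : ℕ) : ℝ) := by
      rw [sub_nonneg]
      exact one_div_le_one_div_of_le hz0 (by push_cast; linarith)
    by_cases hp : (z + 1).Prime
    · have h1 := hE2 (pr z) (fun q hq => pr_prime hq) (z + 1) hp (not_mem_pr z) (by omega) N (by omega)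
        (by omega)
      rw [← pr_succ_prime hp] at h1
      have hVz : V (pr z) ≤ CV / Real.log N ^ 2 := by
        refine (hV z (by omega)).trans ?_
        refine div_le_div_of_nonneg_left hCV (by positivity) ?_
        refine pow_le_pow_left₀ hlN.le ?_ 2
        exact Real.log_le_log hN0 (by exact_mod_cast hz)
      have hV0 := (V_bd (pr z) (fun q hq => pr_prime hq)).1
      have hV2 : V (pr z) ^ 2 ≤ (CV / Real.log N ^ 2) ^ 2 := pow_le_pow_left₀ hV0 hVz 2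
      have h2 : C2 / ((z + 1 : ℕ) : ℝ) ^ 2 + C2 * V (pr z) ^ 2 * N / ((z + 1 : ℕ) : ℝ) ^ 2 ≤
          A * (1 / z - 1 / ((z + 1 : ℕ) : ℝ)) := by
        have h3 : C2 / ((z + 1 : ℕ) : ℝ) ^ 2 + C2 * V (pr z) ^ 2 * N / ((z + 1 : ℕ) : ℝ) ^ 2 ≤
            A * (1 / ((z + 1 : ℕ) : ℝ) ^ 2) := by
          rw [← add_div, mul_one_div]
          refine div_le_div_of_nonneg_right ?_ (by positivity)
          rw [hA]
          have h5 : C2 * V (pr z) ^ 2 * N ≤ C2 * (CV / Real.log N ^ 2) ^ 2 * N :=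
            mul_le_mul_of_nonneg_right (mul_le_mul_of_nonneg_left hV2 hC2) hN0.le
          linarith
        refine h3.trans (mul_le_mul_of_nonneg_left ?_ hA0)
        have h6 : (1 : ℝ) / z - 1 / ((z + 1 : ℕ) : ℝ) = 1 / (z * ((z + 1 : ℕ) : ℝ)) := by
          push_cast
          field_simp
          ring
        rw [h6]
        refine one_div_le_one_div_of_le (by positivity) ?_
        push_cast
        nlinarith
      have e1 : A * (1 / (N : ℝ) - 1 / ((z + 1 : ℕ) : ℝ)) =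
        A * (1 / N - 1 / z) + A * (1 / z - 1 / ((z + 1 : ℕ) : ℝ)) := by ring
      rw [e1]
      linarith
    · rw [pr_succ_not hp]
      refine ih.trans ?_
      have := mul_nonneg hA0 hstep
      have e1 : A * (1 / (N : ℝ) - 1 / ((z + 1 : ℕ) : ℝ)) =
        A * (1 / N - 1 / z) + A * (1 / z - 1 / ((z + 1 : ℕ) : ℝ)) := by ring
      rw [e1]
      linarith

/-- the main step -/
theorem ec_main (hE1 : S_E1) (hE2 : S_E2) (hE3 : S_E3) (hG2 : S_G2) (hG4 : S_G4) (hPV : S_PV)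
    (hVV : S_VV) (ε : ℝ) (hε : 0 < ε) : ∃ c₁ : ℝ, 0 < c₁ ∧ c₁ ≤ 1 ∧ ∀ e : ℝ, ε ≤ e →
      (∃ M0 : ℕ, ∀ M ≥ M0, ∀ z, |Ed (pr z) M| ≤ e) →
      ∃ M0 : ℕ, ∀ M ≥ M0, ∀ z, |Ed (pr z) M| ≤ (1 - c₁ / 4) * e := by
  obtain ⟨C1, hC1, hE1'⟩ := hE1
  obtain ⟨C2, hC2, hE2'⟩ := hE2
  obtain ⟨C3, hC3, hE3a, hE3b⟩ := hE3
  have hG2a := hG2.1
  obtain ⟨c, hc, hPv⟩ := hPV
  obtain ⟨cV, CV, hcV, hCV, hVV'⟩ := hVV
  have hc1 : c ≤ 1 := by
    have h := hPv 7 7 le_rfl le_rfl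
    have hl : Real.log (7 : ℕ) ≠ 0 := (Real.log_pos (by norm_num)).ne'
    rw [div_self hl] at h
    simpa using h
  set κ : ℝ := min (1 / 4) (ε / (4 * (C3 + 1))) with hκ
  have hκ0 : 0 < κ := lt_min (by norm_num) (by positivity)
  have hκ1 : κ ≤ 1 / 4 := min_le_left _ _
  have hκ2 : C3 * κ ≤ ε / 4 := by
    have h1 : κ ≤ ε / (4 * (C3 + 1)) := min_le_right _ _
    have h2 : C3 * κ ≤ C3 * (ε / (4 * (C3 + 1))) := mul_le_mul_of_nonneg_left h1 hC3
    have h3 : C3 * (ε / (4 * (C3 + 1))) ≤ ε / 4 := by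
      rw [← mul_div_assoc, div_le_div_iff₀ (by positivity) (by norm_num)]
      nlinarith
    linarith
  set c₁ : ℝ := c * (κ / 2) ^ 8 with hc₁
  have hc₁0 : 0 < c₁ := by positivity
  have hc₁1 : c₁ ≤ 1 := by
    have h1 : (κ / 2) ^ 8 ≤ 1 := pow_le_one₀ (by positivity) (by linarith)
    have h2 : c * (κ / 2) ^ 8 ≤ 1 * 1 := mul_le_mul hc1 h1 (by positivity) zero_le_one
    rw [hc₁]; linarith
  refine ⟨c₁, hc₁0, hc₁1, ?_⟩
  intro e he ⟨M1, hM1⟩
  have he0 : 0 < e := lt_of_lt_of_le hε he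
  set δ : ℝ := c₁ * ε / 16 with hδ
  have hδ0 : 0 < δ := by positivity
  obtain ⟨M2, hM2⟩ := hG4 δ hδ0
  set M0 : ℕ := max M1 M2 with hM0
  have hH : ∀ M ≥ M0, ∀ z, |Ed (pr z) M| ≤ e := fun M hM z => hM1 M ((le_max_left _ _).trans hM) z
  have hH4 : ∀ M : ℕ, M0 ≤ M → ∀ P : Finset ℕ, (∀ q ∈ P, q.Prime) → |Gd P (M + 1) - Gd P M| ≤ δ :=
    fun M hM P hP => hM2 M ((le_max_right _ _).trans hM) P hP
  set E : ℝ := 4 * M0 * (C3 + 1) + C1 with hE
  have hE0 : 0 ≤ E := by positivity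
  -- the conditions on `N`
  obtain ⟨N1, hN1⟩ := pi_small (c₁ * ε / (16 * (E + 1))) (by positivity)
  have ht : Filter.Tendsto (fun N : ℕ => (N : ℝ) ^ (κ / 2)) Filter.atTop Filter.atTop :=
    (tendsto_rpow_atTop (by positivity)).comp tendsto_natCast_atTop_atTop
  obtain ⟨N3, hN3⟩ := Filter.eventually_atTop.mp (ht.eventually_ge_atTop (16 * C1 / (c₁ * ε) + 8))
  -- the far part
  have hfar : ∃ N4 : ℕ, ∀ N ≥ N4, (C2 + C2 * (CV / Real.log N ^ 2) ^ 2 * N) * (1 / N) ≤ c₁ * ε / 4 := by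
    have t1 : Filter.Tendsto (fun N : ℕ => C2 * (1 / (N : ℝ)) + C2 * CV ^ 2 * (Real.log N)⁻¹ ^ 4)
        Filter.atTop (nhds (C2 * 0 + C2 * CV ^ 2 * 0 ^ 4)) := by
      refine Filter.Tendsto.add ?_ ?_
      · exact (tendsto_one_div_atTop_nhds_zero_nat (𝕜 := ℝ)).const_mul C2
      · refine Filter.Tendsto.const_mul _ (Filter.Tendsto.pow ?_ 4)
        exact tendsto_inv_atTop_zero.comp (Real.tendsto_log_atTop.comp tendsto_natCast_atTop_atTop)
    have h0 : C2 * 0 + C2 * CV ^ 2 * 0 ^ 4 < c₁ * ε / 4 := by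
      have : 0 < c₁ * ε / 4 := by positivity
      simpa using this
    obtain ⟨N4, hN4⟩ := Filter.eventually_atTop.mp ((t1.eventually_lt_const h0).and
      (Filter.eventually_gt_atTop 0))
    refine ⟨N4, fun N hN => ?_⟩
    obtain ⟨a1, a2⟩ := hN4 N hN
    have hN0 : (N : ℝ) ≠ 0 := by exact_mod_cast a2.ne'
    have e1 : (C2 + C2 * (CV / Real.log N ^ 2) ^ 2 * N) * (1 / N) =
        C2 * (1 / (N : ℝ)) + C2 * CV ^ 2 * (Real.log N)⁻¹ ^ 4 := by
      field_simp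
    rw [e1]
    exact a1.le
  obtain ⟨N4, hN4⟩ := hfar
  refine ⟨max N1 (max N3 (max N4 7)), ?_⟩
  intro N hN
  have hNN1 : N1 ≤ N := (le_max_left _ _).trans hN
  have hNN3 : N3 ≤ N := ((le_max_left _ _).trans (le_max_right _ _)).trans hN
  have hNN4 : N4 ≤ N := (((le_max_left _ _).trans (le_max_right _ _)).trans (le_max_right _ _)).trans hN
  have hN7 : 7 ≤ N := (((le_max_right _ _).trans (le_max_right _ _)).trans (le_max_right _ _)).trans hN
  have hN0 : (0 : ℝ) < N := by exact_mod_cast (by omega : 0 < N)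
  have hN1' : (1 : ℝ) < N := by exact_mod_cast (by omega : 1 < N)
  have hlN : 0 < Real.log N := Real.log_pos hN1'
  have hpi := hN1 N hNN1
  have hbig := hN3 N hNN3
  have hroot8 : 8 ≤ (N : ℝ) ^ (κ / 2) := by
    have : 0 ≤ 16 * C1 / (c₁ * ε) := by positivity
    linarith
  set w : ℕ := ⌊(N : ℝ) ^ κ⌋₊ with hw
  have hsq : (N : ℝ) ^ κ = (N : ℝ) ^ (κ / 2) * (N : ℝ) ^ (κ / 2) := by
    rw [← Real.rpow_add hN0]; congr 1; ring
  have hwle : (w : ℝ) ≤ (N : ℝ) ^ κ := Nat.floor_le (Real.rpow_nonneg hN0.le _)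
  have hwlt : (N : ℝ) ^ κ < w + 1 := Nat.lt_floor_add_one _
  have hwge : (N : ℝ) ^ (κ / 2) ≤ w := by nlinarith
  have hw7 : 7 ≤ w := by
    have : (8 : ℝ) ≤ w := hroot8.trans hwge
    have : 8 ≤ w := by exact_mod_cast this
    omega
  have hw0 : (0 : ℝ) < w := by exact_mod_cast (by omega : 0 < w)
  have hwN : w ≤ N := by
    have h1 : (N : ℝ) ^ κ ≤ N := by
      calc (N : ℝ) ^ κ ≤ (N : ℝ) ^ (1 : ℝ) :=
            Real.rpow_le_rpow_of_exponent_le hN1'.le (by linarith)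
        _ = N := Real.rpow_one _
    exact_mod_cast hwle.trans h1
  -- small primes
  have hsmall : ∀ z ≤ w, |Ed (pr z) N| ≤ ε / 4 := by
    intro z hz
    by_cases hz2 : z < 2
    · rw [Ed_small hG2 hz2 (by omega)]; simp; linarith
    · have h1 := hE3b z N (by omega) (by omega)
      have hz0 : (0 : ℝ) < z := by exact_mod_cast (by omega : 0 < z)
      have h2 : Real.log z ≤ κ * Real.log N := by
        rw [← Real.log_rpow hN0]
        exact Real.log_le_log hz0 (le_trans (by exact_mod_cast hz) hwle)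
      refine h1.trans ?_
      rw [div_le_iff₀ (by linarith)]
      have h3 : C3 * Real.log z ≤ C3 * (κ * Real.log N) := mul_le_mul_of_nonneg_left h2 hC3
      have h4 : C3 * κ * Real.log N ≤ ε / 4 * Real.log N := mul_le_mul_of_nonneg_right hκ2 hlN.le
      nlinarith
  have hce : c₁ * ε ≤ c₁ * e := mul_le_mul_of_nonneg_left he hc₁0.le
  -- `z ≤ N`
  have hle : ∀ z ≤ N, |Ed (pr z) N| ≤ (1 - c₁ / 2) * e := by
    intro z hz
    by_cases hzw : z ≤ w
    · have h1 := hsmall z hzw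
      nlinarith
    · have hwz : w ≤ z := by omega
      set Y : ℕ → ℝ := fun z => |Ed (pr z) N| - (e + δ) with hY
      have hYs := rec_sumN Y C1 (E / N) hC1 (by positivity) w N (by omega)
        (fun z' hz' hzN hp =>
          ec_step hC3 hE1' hE3a hG2a he0.le hδ0.le M0 hH hH4 N z' hp (by omega) hzN)
        (fun z' hp => by simp only [hY]; rw [pr_succ_not hp]) z hwz hz
      have herr := err_sum C1 (E / N) hC1 (by positivity) w z N (by omega) hwz hz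
      have hprod : c₁ ≤ ∏ q ∈ (Ioc w z).filter Nat.Prime, (1 - 4 / (q : ℝ)) := by
        refine le_trans ?_ (hPv w z hw7 hwz)
        refine mul_le_mul_of_nonneg_left (pow_le_pow_left₀ (by positivity) ?_ 8) hc.le
        have hz0 : (0 : ℝ) < z := by exact_mod_cast (by omega : 0 < z)
        have hlz : 0 < Real.log z := Real.log_pos (by exact_mod_cast (by omega : 1 < z))
        rw [le_div_iff₀ hlz]
        have h1 : Real.log z ≤ Real.log N := Real.log_le_log hz0 (by exact_mod_cast hz)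
        have h2 : κ / 2 * Real.log N ≤ Real.log w := by
          rw [← Real.log_rpow hN0]
          exact Real.log_le_log (Real.rpow_pos_of_pos hN0 _) hwge
        exact (mul_le_mul_of_nonneg_left h1 (by positivity)).trans h2
      have hYw : Y w ≤ -(3 / 4 * e) := by
        have h1 := hsmall w le_rfl
        simp only [hY]
        linarith
      have hP0 : 0 ≤ ∏ q ∈ (Ioc w z).filter Nat.Prime, (1 - 4 / (q : ℝ)) := hc₁0.le.trans hprod
      have hmain : Y w * (∏ q ∈ (Ioc w z).filter Nat.Prime, (1 - 4 / (q : ℝ))) ≤ -(3 / 4 * e) * c₁ := by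
        have h1 := mul_le_mul_of_nonneg_right hYw hP0
        have h2 := mul_le_mul_of_nonneg_left hprod (show 0 ≤ 3 / 4 * e by positivity)
        linarith
      have herr1 : C1 / w ≤ c₁ * ε / 16 := by
        rw [div_le_iff₀ hw0]
        have h1 : 16 * C1 / (c₁ * ε) ≤ w := by linarith
        rw [div_le_iff₀ (by positivity)] at h1
        linarith
      have herr2 : E / N * (pr N).card ≤ c₁ * ε / 16 := by
        have h1 := mul_le_mul_of_nonneg_left hpi (show 0 ≤ E / N by positivity)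
        have h2 : E / N * (c₁ * ε / (16 * (E + 1)) * N) = c₁ * ε / 16 * (E / (E + 1)) := by
          field_simp
        have h3 : E / (E + 1) ≤ 1 := by rw [div_le_one (by positivity)]; linarith
        have h4 : c₁ * ε / 16 * (E / (E + 1)) ≤ c₁ * ε / 16 * 1 :=
          mul_le_mul_of_nonneg_left h3 (by positivity)
        linarith
      have h9 : |Ed (pr z) N| - (e + δ) ≤ -(3 / 4 * e) * c₁ + (c₁ * ε / 16 + c₁ * ε / 16) := by
        have : Y z ≤ -(3 / 4 * e) * c₁ + (c₁ * ε / 16 + c₁ * ε / 16) := by linarith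
        exact this
      have h10 : δ = c₁ * ε / 16 := hδ
      nlinarith [mul_pos hc₁0 he0]
  intro z
  have hfin : (1 - c₁ / 2) * e ≤ (1 - c₁ / 4) * e := by nlinarith
  by_cases hz : z ≤ N
  · exact (hle z hz).trans hfin
  · have h1 := ec_far hC2 hCV.le hE2' (fun y hy => (hVV' y hy).2) N (by omega) z (by omega)
    have h2 := hle N le_rfl
    have h3 := hN4 N hNN4
    have hz0 : (0 : ℝ) < z := by exact_mod_cast (by omega : 0 < z)
    have hA0 : 0 ≤ C2 + C2 * (CV / Real.log N ^ 2) ^ 2 * N := by positivity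
    have h4 : (C2 + C2 * (CV / Real.log N ^ 2) ^ 2 * N) * (1 / N - 1 / z) ≤
        (C2 + C2 * (CV / Real.log N ^ 2) ^ 2 * N) * (1 / N) := by
      refine mul_le_mul_of_nonneg_left ?_ hA0
      have : 0 ≤ 1 / (z : ℝ) := by positivity
      linarith
    nlinarith

/-- **EC** -/
theorem t_EC (hE1 : S_E1) (hE2 : S_E2) (hE3 : S_E3) (hG2 : S_G2) (hG4 : S_G4) (hPV : S_PV)
    (hVV : S_VV) : S_EC := by
  intro ε hε
  obtain ⟨c₁, hc₁0, hc₁1, hstep⟩ := ec_main hE1 hE2 hE3 hG2 hG4 hPV hVV ε hε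
  obtain ⟨C3, hC3, hE3a, -⟩ := hE3
  have hiter : ∀ k : ℕ, ∃ M0 : ℕ, ∀ M ≥ M0, ∀ z, |Ed (pr z) M| ≤ max ε (C3 * (1 - c₁ / 4) ^ k) := by
    intro k
    induction k with
    | zero =>
      refine ⟨0, fun M _ z => ?_⟩
      refine (hE3a (pr z) (fun q hq => pr_prime hq) M).trans ?_
      simp
    | succ k ih =>
      obtain ⟨M0, hM0⟩ := hstep _ (le_max_left _ _) ih
      refine ⟨M0, fun M hM z => (hM0 M hM z).trans ?_⟩
      have hr : 0 ≤ 1 - c₁ / 4 := by linarith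
      rw [mul_max_of_nonneg _ _ hr]
      refine max_le_max ?_ ?_
      · nlinarith
      · rw [pow_succ]; apply le_of_eq; ring
  obtain ⟨k, hk⟩ := exists_pow_lt_of_lt_one (show 0 < ε / (C3 + 1) by positivity)
    (show 1 - c₁ / 4 < 1 by linarith)
  obtain ⟨M0, hM0⟩ := hiter k
  refine ⟨M0, fun N hN z => (hM0 N hN z).trans ?_⟩
  refine max_le le_rfl ?_
  rw [lt_div_iff₀ (by positivity)] at hk
  have hr : 0 ≤ (1 - c₁ / 4) ^ k := pow_nonneg (by linarith) k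
  nlinarith

end Pool.Agent.H95.TM
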